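import Mathlib

/-!
# MP_c65526_co: the principal ratio after deleting an edge from a regular graph

If `G` is a connected regular graph on `n` vertices and `e` is an edge such that `G - e` is
connected, then the principal ratio of `G - e` is at most `n ^ 2`.
-/

set_option autoImplicit false

namespace Pool.Agent.Results.MP_c65526_co.QuadraticBound

open Finset

/-- `q` is a principal eigenvector of the graph `H`: all its coordinates are positive and it is an
eigenvector of the adjacency matrix for the largest eigenvalue. -/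
def IsPrincipalEigenvector {V : Type} [Fintype V] [DecidableEq V] (H : SimpleGraph V)
    [DecidableRel H.Adj] (q : V → ℝ) : Prop :=
  (∀ x, 0 < q x) ∧ ∃ lam : ℝ, (H.adjMatrix ℝ).mulVec q = lam • q ∧
    ∀ (mu : ℝ) (w : V → ℝ), w ≠ 0 → (H.adjMatrix ℝ).mulVec w = mu • w → mu ≤ lam

/-- The ratio of the largest and the smallest coordinate of `q`. -/
noncomputable def ratio {V : Type} [Fintype V] (q : V → ℝ) : ℝ := (⨆ x, q x) / (⨅ x, q x)

variable {V : Type} [Fintype V] [DecidableEq V]

theorem flow (a : V → V → ℝ) (ha : ∀ x y, a x y = a y x) (q : V → ℝ) (S : Finset V) :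
    ∑ x ∈ S, ∑ y, a x y * (q y - q x) = ∑ x ∈ S, ∑ y ∈ Sᶜ, a x y * (q y - q x) := by
  have h1 : ∀ x ∈ S, ∑ y, a x y * (q y - q x) =
      ∑ y ∈ S, a x y * (q y - q x) + ∑ y ∈ Sᶜ, a x y * (q y - q x) := by
    intro x _
    rw [← Finset.sum_add_sum_compl S]
  rw [Finset.sum_congr rfl h1, Finset.sum_add_distrib]
  have h2 : ∑ x ∈ S, ∑ y ∈ S, a x y * (q y - q x) = 0 := by
    have h3 : ∑ x ∈ S, ∑ y ∈ S, a x y * (q y - q x) =
        - ∑ x ∈ S, ∑ y ∈ S, a x y * (q y - q x) := by
      conv_lhs => rw [Finset.sum_comm]
      rw [← Finset.sum_neg_distrib]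
      refine Finset.sum_congr rfl fun x _ => ?_
      rw [← Finset.sum_neg_distrib]
      refine Finset.sum_congr rfl fun y _ => ?_
      rw [ha y x]
      ring
    linarith
  rw [h2, zero_add]

section main

variable (G : SimpleGraph V) [DecidableRel G.Adj] (d : ℕ) (u v : V)

/-- degrees after the deletion -/
theorem deg_delete (hreg : G.IsRegularOfDegree d) (huv : G.Adj u v)
    [DecidableRel (G.deleteEdges {s(u, v)}).Adj] (x : V) :
    ∑ y, (if (G.deleteEdges {s(u, v)}).Adj x y then (1 : ℝ) else 0) =
      d - ((if x = u then 1 else 0) + (if x = v then 1 else 0)) := by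
  have hne : u ≠ v := huv.ne
  have h1 : ∀ y, (if (G.deleteEdges {s(u, v)}).Adj x y then (1 : ℝ) else 0) =
      (if G.Adj x y then 1 else 0) - ((if x = u ∧ y = v then 1 else 0) +
        (if x = v ∧ y = u then 1 else 0)) := by
    intro y
    have hiff : (G.deleteEdges {s(u, v)}).Adj x y ↔
        G.Adj x y ∧ ¬ ((x = u ∧ y = v) ∨ (x = v ∧ y = u)) := by
      rw [SimpleGraph.deleteEdges_adj]
      simp only [Set.mem_singleton_iff, Sym2.eq_iff]
    by_cases hx1 : x = u ∧ y = v
    · obtain ⟨rfl, rfl⟩ := hx1
      have : ¬ (x = y ∧ y = x) := fun h => hne h.1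
      simp [hiff, huv, hne]
    · by_cases hx2 : x = v ∧ y = u
      · obtain ⟨rfl, rfl⟩ := hx2
        simp [hiff, huv.symm, hne.symm]
      · simp [hiff, hx1, hx2]
  rw [Finset.sum_congr rfl (fun y _ => h1 y), Finset.sum_sub_distrib, Finset.sum_add_distrib]
  have h2 : ∑ y, (if G.Adj x y then (1 : ℝ) else 0) = d := by
    rw [Finset.sum_boole]
    have := hreg x
    rw [← SimpleGraph.card_neighborFinset_eq_degree] at this
    rw [← this]
    congr 1
    congr 1
    ext y
    simp
  have h3 : ∑ y, (if x = u ∧ y = v then (1 : ℝ) else 0) = if x = u then 1 else 0 := by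
    by_cases hx : x = u
    · simp [hx]
    · simp [hx]
  have h4 : ∑ y, (if x = v ∧ y = u then (1 : ℝ) else 0) = if x = v then 1 else 0 := by
    by_cases hx : x = v
    · simp [hx]
    · simp [hx]
  rw [h2, h3, h4]

end main

/-- the key estimate across the boundary of a sublevel set -/
theorem key (G : SimpleGraph V) [DecidableRel G.Adj] (d : ℕ) (u v : V)
    (hreg : G.IsRegularOfDegree d) (huv : G.Adj u v)
    [DecidableRel (G.deleteEdges {s(u, v)}).Adj] (q : V → ℝ) (lam : ℝ) (hq : ∀ x, 0 < q x)
    (heig : ∀ x, ∑ y, (if (G.deleteEdges {s(u, v)}).Adj x y then (1 : ℝ) else 0) * q y = lam * q x)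
    (S : Finset V) :
    ∑ x ∈ S, ∑ y ∈ Sᶜ, (if (G.deleteEdges {s(u, v)}).Adj x y then (1 : ℝ) else 0) * (q y - q x) =
      (lam - d) * ∑ x ∈ S, q x + ((if u ∈ S then q u else 0) + (if v ∈ S then q v else 0)) := by
  rw [← flow (fun x y => if (G.deleteEdges {s(u, v)}).Adj x y then (1 : ℝ) else 0)
    (fun x y => by simp only [SimpleGraph.adj_comm])]
  have h1 : ∀ x ∈ S, ∑ y, (if (G.deleteEdges {s(u, v)}).Adj x y then (1 : ℝ) else 0) * (q y - q x) =
      (lam - d) * q x + ((if x = u then q x else 0) + (if x = v then q x else 0)) := by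
    intro x _
    have : ∑ y, (if (G.deleteEdges {s(u, v)}).Adj x y then (1 : ℝ) else 0) * (q y - q x) =
        ∑ y, (if (G.deleteEdges {s(u, v)}).Adj x y then (1 : ℝ) else 0) * q y -
          (∑ y, (if (G.deleteEdges {s(u, v)}).Adj x y then (1 : ℝ) else 0)) * q x := by
      rw [Finset.sum_mul, ← Finset.sum_sub_distrib]
      exact Finset.sum_congr rfl fun y _ => by ring
    rw [this, heig x, deg_delete G d u v hreg huv x]
    split_ifs <;> ring
  rw [Finset.sum_congr rfl h1, Finset.sum_add_distrib, Finset.sum_add_distrib, ← Finset.mul_sum]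
  simp only [Finset.sum_ite_eq']

/-- the main bound, with `q u ≤ q v` -/
theorem bound (G : SimpleGraph V) [DecidableRel G.Adj] (d : ℕ) (u v : V)
    (hreg : G.IsRegularOfDegree d) (huv : G.Adj u v)
    (hconn : (G.deleteEdges {s(u, v)}).Connected)
    [DecidableRel (G.deleteEdges {s(u, v)}).Adj] (q : V → ℝ) (lam : ℝ) (hq : ∀ x, 0 < q x)
    (heig : ∀ x, ∑ y, (if (G.deleteEdges {s(u, v)}).Adj x y then (1 : ℝ) else 0) * q y = lam * q x)
    (hle : q u ≤ q v) (x y : V) : q x ≤ (Fintype.card V : ℝ) ^ 2 * q y := by
  classical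
  have hne : u ≠ v := huv.ne
  have hkey := key G d u v hreg huv q lam hq heig
  -- lam < d
  have hlam : lam < d := by
    have h := hkey Finset.univ
    simp only [Finset.compl_univ, Finset.sum_empty, Finset.sum_const_zero, Finset.mem_univ,
      if_true] at h
    have hs : 0 < ∑ x, q x := Finset.sum_pos (fun x _ => hq x) ⟨u, Finset.mem_univ u⟩
    by_contra hcon
    push Not at hcon
    have : 0 ≤ (lam - d) * ∑ x, q x := mul_nonneg (by linarith) hs.le
    linarith [hq u, hq v]
  -- the step
  have hstep : ∀ (t c : ℝ) (S : Finset V), (∀ x, x ∈ S ↔ q x ≤ t) → S.Nonempty → S ≠ Finset.univ →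
      ((if u ∈ S then q u else 0) + (if v ∈ S then q v else 0)) ≤ c →
      ∃ y, y ∉ S ∧ q y < t + c := by
    intro t c S hS hne' huniv hc
    obtain ⟨x0, hx0⟩ := hne'
    obtain ⟨y0, hy0⟩ : ∃ y, y ∉ S := by
      by_contra hcon
      push Not at hcon
      exact huniv (Finset.eq_univ_iff_forall.2 hcon)
    obtain ⟨p⟩ := hconn.preconnected x0 y0
    obtain ⟨dd, _, hd1, hd2⟩ := p.exists_boundary_dart (S : Set V) (by simpa using hx0)
      (by simpa using hy0)
    have hd1' : dd.fst ∈ S := by simpa using hd1
    have hd2' : dd.snd ∉ S := by simpa using hd2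
    refine ⟨dd.snd, hd2', ?_⟩
    have h := hkey S
    have hpos : ∀ x ∈ S, ∀ y ∈ Sᶜ,
        0 ≤ (if (G.deleteEdges {s(u, v)}).Adj x y then (1 : ℝ) else 0) * (q y - q x) := by
      intro x hx y hy
      have h1 : q x ≤ t := (hS x).1 hx
      have h2 : t < q y := by
        by_contra hcon
        push Not at hcon
        exact (Finset.mem_compl.1 hy) ((hS y).2 hcon)
      refine mul_nonneg (by split_ifs <;> norm_num) (by linarith)
    have h1 : (if (G.deleteEdges {s(u, v)}).Adj dd.fst dd.snd then (1 : ℝ) else 0) *
        (q dd.snd - q dd.fst) ≤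
        ∑ x ∈ S, ∑ y ∈ Sᶜ, (if (G.deleteEdges {s(u, v)}).Adj x y then (1 : ℝ) else 0) *
          (q y - q x) := by
      refine le_trans ?_ (Finset.single_le_sum (f := fun x => ∑ y ∈ Sᶜ,
        (if (G.deleteEdges {s(u, v)}).Adj x y then (1 : ℝ) else 0) * (q y - q x))
        (fun x hx => Finset.sum_nonneg fun y hy => hpos x hx y hy) hd1')
      exact Finset.single_le_sum (f := fun y =>
        (if (G.deleteEdges {s(u, v)}).Adj dd.fst y then (1 : ℝ) else 0) * (q y - q dd.fst))
        (fun y hy => hpos _ hd1' y hy) (Finset.mem_compl.2 hd2')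
    rw [if_pos dd.adj, one_mul] at h1
    have h2 : q dd.fst ≤ t := (hS _).1 hd1'
    have hs : 0 < ∑ x ∈ S, q x := Finset.sum_pos (fun x _ => hq x) ⟨x0, hx0⟩
    have h3 : (lam - d) * ∑ x ∈ S, q x < 0 := mul_neg_of_neg_of_pos (by linarith) hs
    linarith
  -- `q u` is the minimum
  have hmin : ∀ x, q u ≤ q x := by
    intro x
    by_contra hcon
    push Not at hcon
    obtain ⟨x1, hx1, hx1'⟩ := Finset.exists_min_image (Finset.univ : Finset V) q ⟨u, Finset.mem_univ u⟩
    have hlt : q x1 < q u := lt_of_le_of_lt (hx1' x (Finset.mem_univ x)) hcon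
    have huS : u ∉ Finset.univ.filter (fun z => q z ≤ q x1) := by
      simp only [Finset.mem_filter, Finset.mem_univ, true_and, not_le]
      exact hlt
    have hvS : v ∉ Finset.univ.filter (fun z => q z ≤ q x1) := by
      simp only [Finset.mem_filter, Finset.mem_univ, true_and, not_le]
      linarith
    obtain ⟨y, hy1, hy2⟩ := hstep (q x1) 0 (Finset.univ.filter (fun z => q z ≤ q x1))
      (fun z => by simp) ⟨x1, by simp⟩ (fun h => huS (by rw [h]; exact Finset.mem_univ u))
      (by rw [if_neg huS, if_neg hvS]; norm_num)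
    simp only [Finset.mem_filter, Finset.mem_univ, true_and, not_le] at hy1
    linarith
  set m := q u with hm
  have hm0 : 0 < m := hq u
  set n := Fintype.card V with hn
  -- first phase
  have hphase1 : ∀ k : ℕ, k < n → (k + 1 ≤ (Finset.univ.filter (fun z => q z ≤ (k + 1 : ℝ) * m)).card ∨
      q v ≤ (k + 1 : ℝ) * m) := by
    intro k
    induction k with
    | zero =>
      intro _
      left
      have : u ∈ Finset.univ.filter (fun z => q z ≤ ((0 : ℕ) + 1 : ℝ) * m) := by simp [hm]
      exact Finset.card_pos.2 ⟨u, this⟩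
    | succ k ih =>
      intro hk
      rcases ih (by omega) with h | h
      · by_cases hv : q v ≤ (k + 1 : ℝ) * m
        · right
          push_cast
          nlinarith
        · left
          set S := Finset.univ.filter (fun z => q z ≤ (k + 1 : ℝ) * m) with hSdef
          have hvS : v ∉ S := by simp [hSdef]; linarith
          have huS : u ∈ S := by
            simp only [hSdef, Finset.mem_filter, Finset.mem_univ, true_and]
            have : (0 : ℝ) ≤ k := Nat.cast_nonneg k
            nlinarith
          obtain ⟨y, hy1, hy2⟩ := hstep ((k + 1 : ℝ) * m) m S (fun z => by simp [hSdef]) ⟨u, huS⟩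
            (fun h => hvS (by rw [h]; exact Finset.mem_univ v))
            (by rw [if_pos huS, if_neg hvS]; linarith)
          have hsub : insert y S ⊆ Finset.univ.filter
              (fun z => q z ≤ (((k + 1 : ℕ) : ℝ) + 1) * m) := by
            intro z hz
            simp only [Finset.mem_filter, Finset.mem_univ, true_and]
            push_cast
            rcases Finset.mem_insert.1 hz with rfl | hz
            · linarith
            · have : q z ≤ (k + 1 : ℝ) * m := by simpa [hSdef] using hz
              linarith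
          calc k + 1 + 1 ≤ S.card + 1 := by omega
            _ = (insert y S).card := (Finset.card_insert_of_notMem hy1).symm
            _ ≤ _ := Finset.card_le_card hsub
      · right
        push_cast
        nlinarith
  have hn0 : 0 < n := Fintype.card_pos_iff.2 ⟨u⟩
  have hn2 : 2 ≤ n := by
    have : ({u, v} : Finset V).card ≤ n := Finset.card_le_univ _
    rwa [Finset.card_pair hne] at this
  have hv : q v ≤ n * m := by
    have h := hphase1 (n - 1) (by omega)
    have hcast : (((n - 1 : ℕ) : ℝ) + 1) = n := by
      rw [Nat.cast_sub hn0]; simp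
    rw [hcast] at h
    rcases h with h | h
    · have h2 : Finset.univ.filter (fun z => q z ≤ (n : ℝ) * m) = Finset.univ := by
        apply Finset.eq_univ_of_card
        apply le_antisymm (Finset.card_le_univ _)
        omega
      have h3 : v ∈ Finset.univ.filter (fun z => q z ≤ (n : ℝ) * m) := by
        rw [h2]; exact Finset.mem_univ v
      simpa using h3
    · exact h
  -- second phase
  set c := m + q v with hc
  have hc0 : 0 < c := by linarith [hq v]
  have hphase2 : ∀ k : ℕ, k + 2 ≤ n →
      k + 2 ≤ (Finset.univ.filter (fun z => q z ≤ q v + k * c)).card := by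
    intro k
    induction k with
    | zero =>
      intro _
      have hsub : ({u, v} : Finset V) ⊆ Finset.univ.filter (fun z => q z ≤ q v + ((0 : ℕ) : ℝ) * c) := by
        intro z hz
        simp only [Finset.mem_insert, Finset.mem_singleton] at hz
        rcases hz with rfl | rfl
        · simp; linarith
        · simp
      calc 0 + 2 = ({u, v} : Finset V).card := by rw [Finset.card_pair hne]
        _ ≤ _ := Finset.card_le_card hsub
    | succ k ih =>
      intro hk
      have h := ih (by omega)
      set S := Finset.univ.filter (fun z => q z ≤ q v + k * c) with hSdef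
      have hkc : 0 ≤ (k : ℝ) * c := by positivity
      have hvS : v ∈ S := by simp [hSdef]; linarith
      have huS : u ∈ S := by simp [hSdef]; linarith
      by_cases hall : S = Finset.univ
      · have hsub : S ⊆ Finset.univ.filter (fun z => q z ≤ q v + ((k + 1 : ℕ) : ℝ) * c) := by
          intro z hz
          have hz' : q z ≤ q v + k * c := by simpa [hSdef] using hz
          simp only [Finset.mem_filter, Finset.mem_univ, true_and]
          push_cast
          linarith
        have := Finset.card_le_card hsub
        have h5 : S.card = n := by rw [hall]; exact Finset.card_univ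
        omega
      · obtain ⟨y, hy1, hy2⟩ := hstep (q v + k * c) c S (fun z => by simp [hSdef]) ⟨u, huS⟩
          hall (by rw [if_pos huS, if_pos hvS])
        have hsub : insert y S ⊆ Finset.univ.filter
            (fun z => q z ≤ q v + ((k + 1 : ℕ) : ℝ) * c) := by
          intro z hz
          simp only [Finset.mem_filter, Finset.mem_univ, true_and]
          push_cast
          rcases Finset.mem_insert.1 hz with rfl | hz
          · linarith
          · have : q z ≤ q v + k * c := by simpa [hSdef] using hz
            linarith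
        calc k + 1 + 2 ≤ S.card + 1 := by omega
          _ = (insert y S).card := (Finset.card_insert_of_notMem hy1).symm
          _ ≤ _ := Finset.card_le_card hsub
  have hall : q x ≤ q v + ((n - 2 : ℕ) : ℝ) * c := by
    have h := hphase2 (n - 2) (by omega)
    have h2 : Finset.univ.filter (fun z => q z ≤ q v + ((n - 2 : ℕ) : ℝ) * c) = Finset.univ := by
      apply Finset.eq_univ_of_card
      apply le_antisymm (Finset.card_le_univ _)
      omega
    have h3 : x ∈ Finset.univ.filter (fun z => q z ≤ q v + ((n - 2 : ℕ) : ℝ) * c) := by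
      rw [h2]; exact Finset.mem_univ x
    simpa using h3
  have hcast : ((n - 2 : ℕ) : ℝ) = n - 2 := by rw [Nat.cast_sub hn2]; simp
  rw [hcast] at hall
  have hn2' : (2 : ℝ) ≤ n := by exact_mod_cast hn2
  have h1 : q x ≤ (n : ℝ) ^ 2 * m := by
    have hc2 : c ≤ (n + 1) * m := by rw [hc]; linarith
    have h2 : ((n : ℝ) - 2) * c ≤ ((n : ℝ) - 2) * ((n + 1) * m) :=
      mul_le_mul_of_nonneg_left hc2 (by linarith)
    nlinarith
  have h2 : (n : ℝ) ^ 2 * m ≤ (n : ℝ) ^ 2 * q y := mul_le_mul_of_nonneg_left (hmin y) (by positivity)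
  linarith

/-- **Q1, answered affirmatively.** There is an absolute constant `C` (namely `C = 2`) such that
for every connected regular graph `G` on `n` vertices and every edge `e` of `G` such that
`G - e` is connected, the principal ratio of `G - e` is at most `n ^ C`. -/
theorem result : ∃ C : ℕ, C = 2 ∧
    ∀ (V : Type) [Fintype V] [DecidableEq V] (G : SimpleGraph V) [DecidableRel G.Adj] (d : ℕ),
      G.Connected → G.IsRegularOfDegree d →
      ∀ u v : V, G.Adj u v → (G.deleteEdges {s(u, v)}).Connected →
      ∀ [DecidableRel (G.deleteEdges {s(u, v)}).Adj] (q : V → ℝ),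
        IsPrincipalEigenvector (G.deleteEdges {s(u, v)}) q →
        ratio q ≤ (Fintype.card V : ℝ) ^ C := by
  refine ⟨2, rfl, ?_⟩
  intro V _ _ G _ d _ hreg u v huv hconn _ q hq
  obtain ⟨hpos, lam, heig, _⟩ := hq
  have heig' : ∀ x, ∑ y, (if (G.deleteEdges {s(u, v)}).Adj x y then (1 : ℝ) else 0) * q y =
      lam * q x := by
    intro x
    have := congrFun heig x
    rw [Matrix.mulVec, dotProduct] at this
    simpa [SimpleGraph.adjMatrix_apply] using this
  have hall : ∀ x y, q x ≤ (Fintype.card V : ℝ) ^ 2 * q y := by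
    rcases le_total (q u) (q v) with h | h
    · exact bound G d u v hreg huv hconn q lam hpos heig' h
    · have hsw : G.deleteEdges {s(v, u)} = G.deleteEdges {s(u, v)} := by rw [Sym2.eq_swap]
      intro x y
      refine @bound V _ _ G _ d v u hreg huv.symm (by rw [hsw]; exact hconn)
        (by rw [hsw]; infer_instance) q lam hpos ?_ h x y
      intro x
      have := heig' x
      simp only [hsw]
      convert this
  have : Nonempty V := ⟨u⟩
  obtain ⟨y0, hy0⟩ := Finite.exists_min q
  have hinf : (⨅ x, q x) = q y0 :=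
    le_antisymm (ciInf_le (Set.Finite.bddBelow (Set.finite_range q)) y0) (le_ciInf hy0)
  rw [ratio, hinf, div_le_iff₀ (hpos y0)]
  exact ciSup_le fun x => hall x y0

end Pool.Agent.Results.MP_c65526_co.QuadraticBound
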